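import Pool.Agent.Lib.MP_6bc78b_nt.LW.Iface
import Pool.Agent.Lib.MP_3ae5b0_nt.DivBound

/-! Project LW: the error functions `E1`, `Ek`: continuity, vanishing, second moments. -/

set_option autoImplicit false

open Complex Filter Topology MeasureTheory ArithmeticFunction

namespace Pool.Agent.Lib.MP_6bc78b_nt.LW.H71

open Pool.Agent.Lib.MP_6bc78b_nt
open Pool.Agent.Lib.MP_6bc78b_nt.MS Pool.Agent.Lib.MP_6bc78b_nt.MS.P1
open Pool.Agent.Lib.MP_6bc78b_nt.MS.P5 Pool.Agent.Lib.MP_6bc78b_nt.MS.P5.HM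
open Pool.Agent.Lib.MP_6bc78b_nt.LW

/-! ### Continuity -/

lemma nb_cont (N : ℕ) (T H : ℝ) (a b : ℕ → ℝ) : Continuous (fun t : ℝ => NB N T H a b t) := by
  unfold NB
  fun_prop

lemma e1_cont (lam T H : ℝ) : Continuous (fun t : ℝ => E1 lam T H t) := by
  unfold E1
  exact (nb_cont _ _ _ _ _).norm.add (nb_cont _ _ _ _ _).norm

lemma ek_cont (k : ℕ) (lam T H : ℝ) : Continuous (fun t : ℝ => Ek k lam T H t) := by
  unfold Ek
  exact (((nb_cont _ _ _ _ _).norm.add (nb_cont _ _ _ _ _).norm).add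
    (nb_cont _ _ _ _ _).norm).add (nb_cont _ _ _ _ _).norm

lemma e1_nonneg (lam T H t : ℝ) : 0 ≤ E1 lam T H t := by
  unfold E1; positivity

lemma ek_nonneg (k : ℕ) (lam T H t : ℝ) : 0 ≤ Ek k lam T H t := by
  unfold Ek; positivity

/-! ### Vanishing -/

lemma nb_zero {N : ℕ} {T H : ℝ} (h : prs N T H = ∅) (a b : ℕ → ℝ) (t : ℝ) :
    NB N T H a b t = 0 := by
  unfold NB
  rw [h, Finset.sum_empty]

lemma two_floor_le {T mu : ℝ} (hT : 0 < T) : ((2 * ⌊T ^ mu⌋₊ : ℕ) : ℝ) ≤ 2 * T ^ mu := by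
  push_cast
  have := Nat.floor_le (Real.rpow_nonneg hT.le mu)
  linarith

lemma prs_zero (hN : Nb0Statement) (a0 mu h : ℝ) (ha : 0 < a0) (hmu : mu + a0 < h) :
    ∃ T0 : ℝ, ∀ T H : ℝ, T0 ≤ T → T ^ h ≤ H → prs (2 * ⌊T ^ mu⌋₊) T H = ∅ := by
  obtain ⟨T1, hT1⟩ := hN a0 ha
  have h1 : Tendsto (fun T : ℝ => T ^ (h - mu - a0)) atTop atTop :=
    tendsto_rpow_atTop (by linarith)
  obtain ⟨T2, hT2⟩ := Filter.eventually_atTop.1 (h1.eventually_ge_atTop 2)
  refine ⟨max (max T1 T2) 1, fun T H hT hH => hT1 T H _ ?_ ?_⟩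
  · exact (le_max_left _ _).trans ((le_max_left _ _).trans hT)
  have hT0 : (0 : ℝ) < T := lt_of_lt_of_le one_pos ((le_max_right _ _).trans hT)
  have h2 := hT2 T ((le_max_right _ _).trans ((le_max_left _ _).trans hT))
  calc ((2 * ⌊T ^ mu⌋₊ : ℕ) : ℝ) * T ^ a0 ≤ (2 * T ^ mu) * T ^ a0 := by
        gcongr
        exact two_floor_le hT0
    _ = 2 * T ^ (mu + a0) := by rw [Real.rpow_add hT0]; ring
    _ ≤ T ^ (h - mu - a0) * T ^ (mu + a0) := by gcongr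
    _ = T ^ h := by
        rw [← Real.rpow_add hT0]
        congr 1
        ring
    _ ≤ H := hH

theorem e1_zero (hN : Nb0Statement) (a0 lam h : ℝ) (ha : 0 < a0) (hl : lam + a0 < h) :
    ∃ T0 : ℝ, ∀ T H : ℝ, T0 ≤ T → T ^ h ≤ H → ∀ t : ℝ, E1 lam T H t = 0 := by
  obtain ⟨T0, hT0⟩ := prs_zero hN a0 lam h ha hl
  refine ⟨T0, fun T H hT hH t => ?_⟩
  have := hT0 T H hT hH
  unfold E1
  rw [nb_zero this, nb_zero this]
  simp

theorem ek_zero (hN : Nb0Statement) (k : ℕ) (hk : 1 ≤ k) (a0 lam h : ℝ) (ha : 0 < a0)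
    (hlam : 0 < lam) (hl : (k : ℝ) * lam + a0 < h) :
    ∃ T0 : ℝ, ∀ T H : ℝ, T0 ≤ T → T ^ h ≤ H → ∀ t : ℝ, Ek k lam T H t = 0 := by
  obtain ⟨T0, hT0⟩ := prs_zero hN a0 (k * lam) h ha hl
  have hk1 : (1 : ℝ) ≤ k := by exact_mod_cast hk
  have hl2 : lam ≤ k * lam := by nlinarith
  obtain ⟨T1, hT1⟩ := prs_zero hN a0 lam h ha (by linarith)
  refine ⟨max T0 T1, fun T H hT hH t => ?_⟩
  have h1 := hT0 T H ((le_max_left _ _).trans hT) hH
  have h2 := hT1 T H ((le_max_right _ _).trans hT) hH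
  unfold Ek
  rw [nb_zero h1, nb_zero h1, nb_zero h2, nb_zero h2]
  simp

/-! ### Second moments -/

lemma nb_var (hV : VarLStatement) (h mu : ℝ) (hh : 0 < h) (hmu : mu < 1)
    (hm : 2 * mu < 1 + h) : ∃ e d T0 : ℝ, 0 < e ∧ 0 < d ∧ ∀ T H : ℝ, T0 ≤ T → T ^ h ≤ H → H ≤ T →
      ∀ N : ℕ, (N : ℝ) ≤ 2 * T ^ mu → ∀ a b : ℕ → ℝ, (∀ n, n ≤ N → |a n| ≤ T ^ e) →
      (∀ n, n ≤ N → |b n| ≤ T ^ e) →
        ∫ t in (T / 2)..(4 * T), ‖NB N T H a b t‖ ^ 2 ≤ T ^ (1 - d) / 16 := by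
  set g : ℝ := min h (1 + h - 2 * mu) with hg
  have hg0 : 0 < g := lt_min hh (by linarith)
  have hgh : g ≤ h := min_le_left _ _
  have hgm : g ≤ 1 + h - 2 * mu := min_le_right _ _
  set a0 : ℝ := min h (1 / 4) with ha0
  have ha1 : 0 < a0 := lt_min hh (by norm_num)
  have ha2 : a0 < 1 / 2 := lt_of_le_of_lt (min_le_right _ _) (by norm_num)
  have ha3 : a0 ≤ h := min_le_left _ _
  obtain ⟨T1, hT1⟩ := hV a0 (g / 16) ha1 ha2 (by positivity)
  have h1 : Tendsto (fun T : ℝ => T ^ (3 * g / 16)) atTop atTop :=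
    tendsto_rpow_atTop (by positivity)
  obtain ⟨T2, hT2⟩ := Filter.eventually_atTop.1 (h1.eventually_ge_atTop 80)
  refine ⟨g / 16, g / 2, max (max T1 T2) 1, by positivity, by positivity,
    fun T H hT hH hHT N hN a b ha hb => ?_⟩
  have hT1' : T1 ≤ T := (le_max_left _ _).trans ((le_max_left _ _).trans hT)
  have hT2' : T2 ≤ T := (le_max_right _ _).trans ((le_max_left _ _).trans hT)
  have hTge : (1 : ℝ) ≤ T := (le_max_right _ _).trans hT
  have hTp : (0 : ℝ) < T := by linarith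
  have hbig := hT2 T hT2'
  have hH0 : 0 < H := lt_of_lt_of_le (Real.rpow_pos_of_pos hTp _) hH
  have hTmu : T ^ mu ≤ T := by
    calc T ^ mu ≤ T ^ (1 : ℝ) := Real.rpow_le_rpow_of_exponent_le hTge hmu.le
      _ = T := Real.rpow_one T
  refine (hT1 T H (T ^ (g / 16)) N a b hT1'
    ((Real.rpow_le_rpow_of_exponent_le hTge ha3).trans hH) hHT
    (hN.trans (by linarith)) (Real.rpow_nonneg hTp.le _) ha hb).trans ?_
  have k1 : 1 / H ≤ T ^ (-h) := by
    rw [Real.rpow_neg hTp.le, ← one_div]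
    exact one_div_le_one_div_of_le (Real.rpow_pos_of_pos hTp _) hH
  have k2 : (N : ℝ) ^ 2 / T ≤ 4 * T ^ (2 * mu - 1) := by
    rw [div_le_iff₀ hTp]
    calc (N : ℝ) ^ 2 ≤ (2 * T ^ mu) ^ 2 := by gcongr
      _ = 4 * (T ^ mu * T ^ mu) := by ring
      _ = 4 * T ^ (2 * mu) := by rw [← Real.rpow_add hTp]; congr 2; ring
      _ = 4 * T ^ (2 * mu - 1) * T := by
          rw [mul_assoc]
          nth_rewrite 3 [← Real.rpow_one T]
          rw [← Real.rpow_add hTp]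
          congr 2
          ring
  have k3 : 1 / H * (1 + (N : ℝ) ^ 2 / T) ≤ 5 * T ^ (-g) := by
    calc 1 / H * (1 + (N : ℝ) ^ 2 / T) ≤ T ^ (-h) * (1 + 4 * T ^ (2 * mu - 1)) := by gcongr
      _ = T ^ (-h) + 4 * T ^ (-h + (2 * mu - 1)) := by rw [Real.rpow_add hTp]; ring
      _ ≤ T ^ (-g) + 4 * T ^ (-g) := by
          gcongr <;> linarith
      _ = 5 * T ^ (-g) := by ring
  have k4 : (T ^ (g / 16)) ^ 4 = T ^ (g / 4) := by
    rw [← Real.rpow_natCast, ← Real.rpow_mul hTp.le]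
    congr 1
    push_cast
    ring
  rw [k4]
  calc T ^ (g / 4) * T ^ (1 + g / 16) * (1 / H) * (1 + (N : ℝ) ^ 2 / T)
      = (T ^ (g / 4) * T ^ (1 + g / 16)) * (1 / H * (1 + (N : ℝ) ^ 2 / T)) := by ring
    _ ≤ (T ^ (g / 4) * T ^ (1 + g / 16)) * (5 * T ^ (-g)) := by gcongr
    _ = 5 * (T ^ (g / 4) * T ^ (1 + g / 16) * T ^ (-g)) := by ring
    _ = 5 * T ^ ((1 - g / 2) - 3 * g / 16) := by
        rw [← Real.rpow_add hTp, ← Real.rpow_add hTp]
        congr 2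
        ring
    _ = 5 * (T ^ (1 - g / 2) / T ^ (3 * g / 16)) := by rw [Real.rpow_sub hTp]
    _ ≤ 5 * (T ^ (1 - g / 2) / 80) := by
        gcongr
    _ = T ^ (1 - g / 2) / 16 := by ring

/-! ### Coefficients -/

lemma mul_apply_le (f g : ArithmeticFunction ℝ) (F G : ℝ) (n : ℕ) (hF : 0 ≤ F)
    (hf : ∀ m, m ∣ n → |f m| ≤ F) (hg : ∀ m, m ∣ n → |g m| ≤ G) :
    |(f * g) n| ≤ F * G * (n.divisors.card : ℝ) := by
  rw [ArithmeticFunction.mul_apply]
  calc |∑ x ∈ n.divisorsAntidiagonal, f x.1 * g x.2|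
      ≤ ∑ x ∈ n.divisorsAntidiagonal, |f x.1 * g x.2| := Finset.abs_sum_le_sum_abs _ _
    _ ≤ ∑ x ∈ n.divisorsAntidiagonal, F * G := by
        refine Finset.sum_le_sum fun x hx => ?_
        rw [Nat.mem_divisorsAntidiagonal] at hx
        rw [abs_mul]
        have h1 := hf x.1 ⟨x.2, hx.1.symm⟩
        have h2 := hg x.2 ⟨x.1, by rw [← hx.1, mul_comm]⟩
        exact mul_le_mul h1 h2 (abs_nonneg _) hF
    _ = F * G * (n.divisors.card : ℝ) := by
        rw [Finset.sum_const, nsmul_eq_mul, ← Nat.map_div_right_divisors, Finset.card_map]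
        ring

lemma pow_coef (k : ℕ) : ∀ ε : ℝ, 0 < ε → ∃ C : ℝ, 1 ≤ C ∧ ∀ f : ArithmeticFunction ℝ,
    (∀ n, |f n| ≤ 1) → ∀ n : ℕ, |(f ^ k) n| ≤ C * (n : ℝ) ^ ε := by
  induction k with
  | zero =>
    intro ε hε
    refine ⟨1, le_rfl, fun f _ n => ?_⟩
    rw [pow_zero, ArithmeticFunction.one_apply]
    split_ifs with h
    · rw [h]; simp
    · rw [abs_zero]; positivity
  | succ k ih =>
    intro ε hε
    obtain ⟨C, hC1, hC⟩ := ih (ε / 2) (by positivity)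
    obtain ⟨D, hD1, hD⟩ := Pool.Agent.Lib.MP_3ae5b0_nt.divisor_bound (ε / 2) (by positivity)
    refine ⟨C * D, one_le_mul_of_one_le_of_one_le hC1 hD1, fun f hf n => ?_⟩
    rcases Nat.eq_zero_or_pos n with h0 | h0
    · rw [h0, ArithmeticFunction.map_zero, abs_zero]
      positivity
    have hn1 : (1 : ℝ) ≤ n := by exact_mod_cast h0
    have hn0 : (0 : ℝ) < n := by linarith
    have h1 := mul_apply_le (f ^ k) f (C * (n : ℝ) ^ (ε / 2)) 1 n (by positivity)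
      (fun m hm => (hC f hf m).trans (by
        have : (m : ℝ) ≤ n := by exact_mod_cast Nat.le_of_dvd h0 hm
        gcongr)) (fun m _ => hf m)
    rw [pow_succ]
    refine h1.trans ?_
    have h2 := hD n h0.ne'
    calc C * (n : ℝ) ^ (ε / 2) * 1 * (n.divisors.card : ℝ)
        ≤ C * (n : ℝ) ^ (ε / 2) * 1 * (D * (n : ℝ) ^ (ε / 2)) := by gcongr
      _ = C * D * ((n : ℝ) ^ (ε / 2) * (n : ℝ) ^ (ε / 2)) := by ring
      _ = C * D * (n : ℝ) ^ ε := by
          rw [← Real.rpow_add hn0]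
          congr 2
          ring

lemma la_le_log (n : ℕ) : |La n| ≤ Real.log n := by
  unfold La
  rw [abs_of_nonneg ArithmeticFunction.vonMangoldt_nonneg]
  exact ArithmeticFunction.vonMangoldt_le_log

lemma la_mul_le (g : ArithmeticFunction ℝ) (G : ℝ) (n : ℕ)
    (hg : ∀ m, m ∣ n → |g m| ≤ G) : |(La * g) n| ≤ Real.log n * G := by
  rw [ArithmeticFunction.mul_apply]
  calc |∑ x ∈ n.divisorsAntidiagonal, La x.1 * g x.2|
      ≤ ∑ x ∈ n.divisorsAntidiagonal, |La x.1 * g x.2| := Finset.abs_sum_le_sum_abs _ _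
    _ ≤ ∑ x ∈ n.divisorsAntidiagonal, La x.1 * G := by
        refine Finset.sum_le_sum fun x hx => ?_
        rw [Nat.mem_divisorsAntidiagonal] at hx
        have h0 : 0 ≤ La x.1 := ArithmeticFunction.vonMangoldt_nonneg
        rw [abs_mul, abs_of_nonneg h0]
        exact mul_le_mul_of_nonneg_left (hg x.2 ⟨x.1, by rw [← hx.1, mul_comm]⟩) h0
    _ = (∑ x ∈ n.divisorsAntidiagonal, La x.1) * G := by rw [Finset.sum_mul]
    _ = Real.log n * G := by
        congr 1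
        have h1 := Nat.sum_divisorsAntidiagonal (n := n) (fun a _ => La a)
        exact h1.trans ArithmeticFunction.vonMangoldt_sum

/-- Everything of the form `C n^(e/2) (1 + log n)` is at most `T^e` for `n ≤ 2T`. -/
lemma coef_final (C e : ℝ) (hC : 0 ≤ C) (he : 0 < e) : ∃ T0 : ℝ, 1 ≤ T0 ∧ ∀ T : ℝ, T0 ≤ T →
    ∀ n : ℕ, (n : ℝ) ≤ 2 * T → C * (n : ℝ) ^ (e / 2) * (1 + Real.log n) ≤ T ^ e := by
  have h1 : ∀ᶠ T : ℝ in atTop, C * 2 ^ (e / 2) * (2 + Real.log T) ≤ T ^ (e / 2) := by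
    have hb := ((isLittleO_log_rpow_atTop (show 0 < e / 2 by positivity)).bound
      (show (0 : ℝ) < 1 / (2 * (C * 2 ^ (e / 2) + 1)) by positivity))
    have hc := (tendsto_rpow_atTop (show 0 < e / 2 by positivity)).eventually_ge_atTop
      (4 * (C * 2 ^ (e / 2)))
    filter_upwards [hb, hc, eventually_gt_atTop (1 : ℝ)] with T h2 h3 h4
    have hp : 0 < T ^ (e / 2) := Real.rpow_pos_of_pos (by linarith) _
    have hl : 0 ≤ Real.log T := Real.log_nonneg h4.le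
    rw [Real.norm_of_nonneg hl, Real.norm_of_nonneg hp.le] at h2
    set D := C * 2 ^ (e / 2) with hD
    have hD0 : 0 ≤ D := by positivity
    have h5 : D * Real.log T ≤ T ^ (e / 2) / 2 := by
      calc D * Real.log T ≤ (D + 1) * Real.log T := by nlinarith
        _ ≤ (D + 1) * (1 / (2 * (D + 1)) * T ^ (e / 2)) := by gcongr
        _ = T ^ (e / 2) / 2 := by field_simp
    linarith
  obtain ⟨T1, hT1⟩ := Filter.eventually_atTop.1 h1
  refine ⟨max T1 1, le_max_right _ _, fun T hT n hn => ?_⟩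
  have hT1' := hT1 T ((le_max_left _ _).trans hT)
  have hTge : (1 : ℝ) ≤ T := (le_max_right _ _).trans hT
  have hTp : (0 : ℝ) < T := by linarith
  rcases Nat.eq_zero_or_pos n with h0 | h0
  · rw [h0]
    have : ((0 : ℕ) : ℝ) ^ (e / 2) = 0 := by
      rw [Nat.cast_zero, Real.zero_rpow (by positivity)]
    rw [this]
    simp only [mul_zero, zero_mul]
    exact Real.rpow_nonneg hTp.le _
  have hn1 : (1 : ℝ) ≤ n := by exact_mod_cast h0
  have hlog : Real.log n ≤ 1 + Real.log T := by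
    have h2 : Real.log n ≤ Real.log (2 * T) := Real.log_le_log (by linarith) hn
    rw [Real.log_mul (by norm_num) hTp.ne'] at h2
    have := Real.log_two_lt_d9
    linarith
  have hlog0 : 0 ≤ Real.log n := Real.log_nonneg hn1
  calc C * (n : ℝ) ^ (e / 2) * (1 + Real.log n)
      ≤ C * (2 * T) ^ (e / 2) * (1 + (1 + Real.log T)) := by gcongr
    _ = T ^ (e / 2) * (C * 2 ^ (e / 2) * (2 + Real.log T)) := by
        rw [Real.mul_rpow (by norm_num) hTp.le]; ring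
    _ ≤ T ^ (e / 2) * T ^ (e / 2) := by gcongr
    _ = T ^ e := by
        rw [← Real.rpow_add hTp]
        congr 1
        ring

/-- All the coefficients are at most `T^e`. -/
lemma coefs (k : ℕ) (lam e : ℝ) (hlam : 0 < lam) (he : 0 < e) : ∃ T0 : ℝ, 1 ≤ T0 ∧
    ∀ T : ℝ, T0 ≤ T → ∀ n : ℕ, (n : ℝ) ≤ 2 * T →
      |La n| ≤ T ^ e ∧ |bb lam T n| ≤ T ^ e ∧ |((bp lam T) ^ k) n| ≤ T ^ e ∧
      |(La * (bp lam T) ^ k) n| ≤ T ^ e ∧ |bq lam T n| ≤ T ^ e ∧ |(La * bq lam T) n| ≤ T ^ e := by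
  obtain ⟨C, hC1, hC⟩ := pow_coef k (e / 2) (by positivity)
  obtain ⟨T1, hT11, hT1⟩ := coef_final C e (by linarith) he
  refine ⟨max T1 2, (by linarith [le_max_right T1 2]), fun T hT n hn => ?_⟩
  have hT2 : (2 : ℝ) ≤ T := (le_max_right _ _).trans hT
  have hT1' : 1 < T := by linarith
  have hTp : (0 : ℝ) < T := by linarith
  have hfin := hT1 T ((le_max_left _ _).trans hT) n hn
  have hL : 0 < lam * Real.log T := mul_pos hlam (Real.log_pos hT1')
  have hone : (1 : ℝ) ≤ T ^ e := Real.one_le_rpow hT1'.le he.le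
  have hbb : ∀ m, |bb lam T m| ≤ 1 := fun m => ZBB.abs_bb_le lam T hlam hT1' m
  have hbp : ∀ m, |bp lam T m| ≤ 1 := by
    intro m
    rw [H59.bp_apply]
    split_ifs
    · exact hbb m
    · simp
  have hbq : ∀ m, |bq lam T m| ≤ 1 := by
    intro m
    rw [bq_apply]
    split_ifs
    · simp
    · exact hbb m
  rcases Nat.eq_zero_or_pos n with h0 | h0
  · subst h0
    have hz : |(0 : ℝ)| ≤ T ^ e := by rw [abs_zero]; linarith
    refine ⟨?_, (hbb 0).trans hone, ?_, ?_, (hbq 0).trans hone, ?_⟩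
    · rw [ArithmeticFunction.map_zero]; exact hz
    · rw [ArithmeticFunction.map_zero]; exact hz
    · rw [ArithmeticFunction.map_zero]; exact hz
    · rw [ArithmeticFunction.map_zero]; exact hz
  have hn1 : (1 : ℝ) ≤ n := by exact_mod_cast h0
  have hlog0 : 0 ≤ Real.log n := Real.log_nonneg hn1
  have hne : (1 : ℝ) ≤ (n : ℝ) ^ (e / 2) := Real.one_le_rpow hn1 (by positivity)
  have hCn : 1 ≤ C * (n : ℝ) ^ (e / 2) := one_le_mul_of_one_le_of_one_le hC1 hne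
  have hlogle : Real.log n ≤ T ^ e := by
    refine le_trans ?_ hfin
    nlinarith
  refine ⟨(la_le_log n).trans hlogle, (hbb n).trans hone, ?_, ?_, (hbq n).trans hone, ?_⟩
  · refine (hC _ hbp n).trans (le_trans ?_ hfin)
    nlinarith
  · refine (la_mul_le _ (C * (n : ℝ) ^ (e / 2)) n (fun m hm => (hC _ hbp m).trans (by
        have : (m : ℝ) ≤ n := by exact_mod_cast Nat.le_of_dvd h0 hm
        have : (0 : ℝ) ≤ m := Nat.cast_nonneg m
        gcongr))).trans (le_trans ?_ hfin)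
    nlinarith
  · refine (la_mul_le _ 1 n (fun m _ => hbq m)).trans ?_
    rw [mul_one]
    exact hlogle

lemma floor_le_two {T mu : ℝ} (hT : 1 ≤ T) (hmu : mu ≤ 1) {n : ℕ} (hn : n ≤ 2 * ⌊T ^ mu⌋₊) :
    (n : ℝ) ≤ 2 * T := by
  have h1 : (n : ℝ) ≤ ((2 * ⌊T ^ mu⌋₊ : ℕ) : ℝ) := by exact_mod_cast hn
  have h2 : T ^ mu ≤ T := by
    calc T ^ mu ≤ T ^ (1 : ℝ) := Real.rpow_le_rpow_of_exponent_le hT hmu
      _ = T := Real.rpow_one T
  have := two_floor_le (mu := mu) (show 0 < T by linarith)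
  linarith

theorem e1_var (hV : VarLStatement) (h lam : ℝ) (hh : 0 < h) (hlam : 0 < lam)
    (hlam1 : lam < 1) (hl : 2 * lam < 1 + h) :
    ∃ d T0 : ℝ, 0 < d ∧ ∀ T H : ℝ, T0 ≤ T → T ^ h ≤ H → H ≤ T →
      ∫ t in (T / 2)..(4 * T), (E1 lam T H t) ^ 2 ≤ T ^ (1 - d) := by
  obtain ⟨e, d, T1, he, hd, hT1⟩ := nb_var hV h lam hh hlam1 hl
  obtain ⟨T2, hT21, hT2⟩ := coefs 1 lam e hlam he
  refine ⟨d, max T1 T2, hd, fun T H hT hH hHT => ?_⟩
  have hTge : (1 : ℝ) ≤ T := hT21.trans ((le_max_right _ _).trans hT)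
  have hTp : (0 : ℝ) < T := by linarith
  have hc := hT2 T ((le_max_right _ _).trans hT)
  have hv := hT1 T H ((le_max_left _ _).trans hT) hH hHT (2 * ⌊T ^ lam⌋₊) (two_floor_le hTp)
  have hcn : ∀ n, n ≤ 2 * ⌊T ^ lam⌋₊ → (n : ℝ) ≤ 2 * T := fun n hn =>
    floor_le_two hTge hlam1.le hn
  have v1 := hv La (bb lam T) (fun n hn => (hc n (hcn n hn)).1)
    (fun n hn => (hc n (hcn n hn)).2.1)
  have v2 := hv (bb lam T) (bb lam T) (fun n hn => (hc n (hcn n hn)).2.1)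
    (fun n hn => (hc n (hcn n hn)).2.1)
  have c1 := ((nb_cont (2 * ⌊T ^ lam⌋₊) T H La (bb lam T)).norm.pow 2)
  have c2 := ((nb_cont (2 * ⌊T ^ lam⌋₊) T H (bb lam T) (bb lam T)).norm.pow 2)
  set f1 : ℝ → ℝ := fun t => ‖NB (2 * ⌊T ^ lam⌋₊) T H La (bb lam T) t‖ with hf1
  set f2 : ℝ → ℝ := fun t => ‖NB (2 * ⌊T ^ lam⌋₊) T H (bb lam T) (bb lam T) t‖ with hf2
  have i0 : IntervalIntegrable (fun t => (E1 lam T H t) ^ 2) volume (T / 2) (4 * T) :=
    ((e1_cont lam T H).pow 2).intervalIntegrable _ _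
  have i1 : IntervalIntegrable (fun t => 2 * f1 t ^ 2) volume (T / 2) (4 * T) :=
    (continuous_const.mul c1).intervalIntegrable _ _
  have i2 : IntervalIntegrable (fun t => 2 * f2 t ^ 2) volume (T / 2) (4 * T) :=
    (continuous_const.mul c2).intervalIntegrable _ _
  calc ∫ t in (T / 2)..(4 * T), (E1 lam T H t) ^ 2
      ≤ ∫ t in (T / 2)..(4 * T), (2 * f1 t ^ 2 + 2 * f2 t ^ 2) := by
        refine intervalIntegral.integral_mono_on (by linarith) i0 (i1.add i2) fun t _ => ?_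
        have : E1 lam T H t = f1 t + f2 t := rfl
        rw [this]
        nlinarith [sq_nonneg (f1 t - f2 t)]
    _ = 2 * (∫ t in (T / 2)..(4 * T), f1 t ^ 2) + 2 * (∫ t in (T / 2)..(4 * T), f2 t ^ 2) := by
        rw [intervalIntegral.integral_add i1 i2, intervalIntegral.integral_const_mul,
          intervalIntegral.integral_const_mul]
    _ ≤ 2 * (T ^ (1 - d) / 16) + 2 * (T ^ (1 - d) / 16) := by gcongr
    _ ≤ T ^ (1 - d) := by
        have : 0 ≤ T ^ (1 - d) := Real.rpow_nonneg hTp.le _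
        linarith

theorem ek_var (hV : VarLStatement) (k : ℕ) (hk : 1 ≤ k) (h lam : ℝ) (hh : 0 < h) (hh1 : h < 1)
    (hlam : 0 < lam) (hlam1 : (k : ℝ) * lam < 1) (hl : 2 * ((k : ℝ) * lam) < 1 + h) :
    ∃ d T0 : ℝ, 0 < d ∧ ∀ T H : ℝ, T0 ≤ T → T ^ h ≤ H → H ≤ T →
      ∫ t in (T / 2)..(4 * T), (Ek k lam T H t) ^ 2 ≤ T ^ (1 - d) := by
  have hk1 : (1 : ℝ) ≤ k := by exact_mod_cast hk
  have hl2 : lam ≤ k * lam := by nlinarith
  obtain ⟨e, d, T1, he, hd, hT1⟩ := nb_var hV h (k * lam) hh hlam1 hl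
  obtain ⟨T2, hT21, hT2⟩ := coefs k lam e hlam he
  refine ⟨d, max T1 T2, hd, fun T H hT hH hHT => ?_⟩
  have hTge : (1 : ℝ) ≤ T := hT21.trans ((le_max_right _ _).trans hT)
  have hTp : (0 : ℝ) < T := by linarith
  have hc := hT2 T ((le_max_right _ _).trans hT)
  have hmono : T ^ lam ≤ T ^ ((k : ℝ) * lam) := Real.rpow_le_rpow_of_exponent_le hTge hl2
  have hv := hT1 T H ((le_max_left _ _).trans hT) hH hHT (2 * ⌊T ^ ((k : ℝ) * lam)⌋₊)
    (two_floor_le hTp)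
  have hw := hT1 T H ((le_max_left _ _).trans hT) hH hHT (2 * ⌊T ^ lam⌋₊)
    ((two_floor_le hTp).trans (by linarith))
  have hcn : ∀ n, n ≤ 2 * ⌊T ^ ((k : ℝ) * lam)⌋₊ → (n : ℝ) ≤ 2 * T := fun n hn =>
    floor_le_two hTge hlam1.le hn
  have hcm : ∀ n, n ≤ 2 * ⌊T ^ lam⌋₊ → (n : ℝ) ≤ 2 * T := fun n hn =>
    floor_le_two hTge (by linarith) hn
  have v1 := hv (⇑((bp lam T) ^ k)) (⇑((bp lam T) ^ k)) (fun n hn => (hc n (hcn n hn)).2.2.1)
    (fun n hn => (hc n (hcn n hn)).2.2.1)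
  have v2 := hv (⇑(La * (bp lam T) ^ k)) (⇑((bp lam T) ^ k)) (fun n hn => (hc n (hcn n hn)).2.2.2.1)
    (fun n hn => (hc n (hcn n hn)).2.2.1)
  have v3 := hw (bq lam T) (bq lam T) (fun n hn => (hc n (hcm n hn)).2.2.2.2.1)
    (fun n hn => (hc n (hcm n hn)).2.2.2.2.1)
  have v4 := hw (⇑(La * bq lam T)) (bq lam T) (fun n hn => (hc n (hcm n hn)).2.2.2.2.2)
    (fun n hn => (hc n (hcm n hn)).2.2.2.2.1)
  have c1 := ((nb_cont (2 * ⌊T ^ ((k : ℝ) * lam)⌋₊) T H (⇑((bp lam T) ^ k))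
    (⇑((bp lam T) ^ k))).norm.pow 2)
  have c2 := ((nb_cont (2 * ⌊T ^ ((k : ℝ) * lam)⌋₊) T H (⇑(La * (bp lam T) ^ k))
    (⇑((bp lam T) ^ k))).norm.pow 2)
  have c3 := ((nb_cont (2 * ⌊T ^ lam⌋₊) T H (bq lam T) (bq lam T)).norm.pow 2)
  have c4 := ((nb_cont (2 * ⌊T ^ lam⌋₊) T H (⇑(La * bq lam T)) (bq lam T)).norm.pow 2)
  set f1 : ℝ → ℝ := fun t => ‖NB (2 * ⌊T ^ ((k : ℝ) * lam)⌋₊) T H (⇑((bp lam T) ^ k))
    (⇑((bp lam T) ^ k)) t‖ with hf1
  set f2 : ℝ → ℝ := fun t => ‖NB (2 * ⌊T ^ ((k : ℝ) * lam)⌋₊) T H (⇑(La * (bp lam T) ^ k))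
    (⇑((bp lam T) ^ k)) t‖ with hf2
  set f3 : ℝ → ℝ := fun t => ‖NB (2 * ⌊T ^ lam⌋₊) T H (bq lam T) (bq lam T) t‖ with hf3
  set f4 : ℝ → ℝ := fun t => ‖NB (2 * ⌊T ^ lam⌋₊) T H (⇑(La * bq lam T)) (bq lam T) t‖ with hf4
  have i1 : IntervalIntegrable (fun t => 4 * f1 t ^ 2) volume (T / 2) (4 * T) :=
    (continuous_const.mul c1).intervalIntegrable _ _
  have i2 : IntervalIntegrable (fun t => 4 * f2 t ^ 2) volume (T / 2) (4 * T) :=
    (continuous_const.mul c2).intervalIntegrable _ _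
  have i3 : IntervalIntegrable (fun t => 4 * f3 t ^ 2) volume (T / 2) (4 * T) :=
    (continuous_const.mul c3).intervalIntegrable _ _
  have i4 : IntervalIntegrable (fun t => 4 * f4 t ^ 2) volume (T / 2) (4 * T) :=
    (continuous_const.mul c4).intervalIntegrable _ _
  have i0 : IntervalIntegrable (fun t => (Ek k lam T H t) ^ 2) volume (T / 2) (4 * T) :=
    ((ek_cont k lam T H).pow 2).intervalIntegrable _ _
  calc ∫ t in (T / 2)..(4 * T), (Ek k lam T H t) ^ 2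
      ≤ ∫ t in (T / 2)..(4 * T), (4 * f1 t ^ 2 + 4 * f2 t ^ 2 + 4 * f3 t ^ 2 + 4 * f4 t ^ 2) := by
        refine intervalIntegral.integral_mono_on (by linarith) i0 (((i1.add i2).add i3).add i4)
          fun t _ => ?_
        have : Ek k lam T H t = f1 t + f2 t + f3 t + f4 t := rfl
        rw [this]
        nlinarith [sq_nonneg (f1 t - f2 t), sq_nonneg (f1 t - f3 t), sq_nonneg (f1 t - f4 t),
          sq_nonneg (f2 t - f3 t), sq_nonneg (f2 t - f4 t), sq_nonneg (f3 t - f4 t)]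
    _ = 4 * (∫ t in (T / 2)..(4 * T), f1 t ^ 2) + 4 * (∫ t in (T / 2)..(4 * T), f2 t ^ 2) +
        4 * (∫ t in (T / 2)..(4 * T), f3 t ^ 2) + 4 * (∫ t in (T / 2)..(4 * T), f4 t ^ 2) := by
        rw [intervalIntegral.integral_add ((i1.add i2).add i3) i4,
          intervalIntegral.integral_add (i1.add i2) i3, intervalIntegral.integral_add i1 i2,
          intervalIntegral.integral_const_mul, intervalIntegral.integral_const_mul,
          intervalIntegral.integral_const_mul, intervalIntegral.integral_const_mul]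
    _ ≤ 4 * (T ^ (1 - d) / 16) + 4 * (T ^ (1 - d) / 16) + 4 * (T ^ (1 - d) / 16) +
        4 * (T ^ (1 - d) / 16) := by gcongr
    _ = T ^ (1 - d) := by ring

end Pool.Agent.Lib.MP_6bc78b_nt.LW.H71
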