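import Mathlib
import Pool.Agent.Lib.MP_3ae5b0_nt.DivBound

/-! Count of near-diagonal quadruples (paper: finding 3829, item 4). Self-contained part. -/

set_option autoImplicit false

open Finset

namespace Pool.Agent.Lib.MP_6bc78b_nt.LW.H71

lemma abs_sub_le_max_mul_log {x y : ℝ} (hx : 0 < x) (hy : 0 < y) :
    |x - y| ≤ max x y * |Real.log x - Real.log y| := by
  wlog h : y ≤ x generalizing x y with H
  · have := H hy hx (le_of_not_ge h)
    rwa [abs_sub_comm, max_comm, abs_sub_comm (Real.log x)]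
  have h1 : Real.log y ≤ Real.log x := Real.log_le_log hy h
  rw [max_eq_left h, abs_of_nonneg (sub_nonneg.2 h), abs_of_nonneg (sub_nonneg.2 h1),
    ← Real.log_div hx.ne' hy.ne']
  have h2 := Real.one_sub_inv_le_log_of_pos (div_pos hx hy)
  have h3 : x * (1 - (x / y)⁻¹) = x - y := by
    field_simp
  calc x - y = x * (1 - (x / y)⁻¹) := h3.symm
    _ ≤ x * Real.log (x / y) := mul_le_mul_of_nonneg_left h2 hx.le

lemma le_two_mul_of_log {x y : ℝ} (hx : 0 < x) (hy : 0 < y)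
    (h : |Real.log x - Real.log y| ≤ Real.log 2) : x ≤ 2 * y := by
  have h1 : Real.log x ≤ Real.log (2 * y) := by
    rw [Real.log_mul (by norm_num) hy.ne']
    have := (abs_le.1 h).2
    linarith
  exact (Real.log_le_log_iff hx (by positivity)).1 h1

lemma sum_inv_le (N : ℕ) : ∑ m ∈ Icc 1 N, (1 : ℝ) / m ≤ 1 + Real.log N := by
  have h := harmonic_le_one_add_log N
  have h2 : ((harmonic N : ℚ) : ℝ) = ∑ m ∈ Icc 1 N, (1 : ℝ) / m := by
    rw [harmonic_eq_sum_Icc]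
    push_cast
    exact sum_congr rfl fun m _ => by rw [one_div]
  rw [← h2]
  exact h

/-- A member of the near-diagonal set. -/
structure NearD (N : ℕ) (L H : ℝ) (p : ℕ × ℕ) : Prop where
  m1 : 1 ≤ p.1
  mN : p.1 ≤ N
  n1 : 1 ≤ p.2
  nN : p.2 ≤ N
  ne : p.1 ≠ p.2
  lg : H * |Real.log p.1 - Real.log p.2| ≤ L

lemma NearD.log_le {N : ℕ} {L H : ℝ} {p : ℕ × ℕ} (h : NearD N L H p) (hH : 0 < H) :
    |Real.log p.1 - Real.log p.2| ≤ L / H := by
  rw [le_div_iff₀ hH]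
  linarith [h.lg]

lemma NearD.le_two {N : ℕ} {L H : ℝ} {p : ℕ × ℕ} (h : NearD N L H p) (hH : 0 < H)
    (hL : L / H ≤ Real.log 2) : (p.1 : ℝ) ≤ 2 * p.2 ∧ (p.2 : ℝ) ≤ 2 * p.1 := by
  have h1 : (0 : ℝ) < p.1 := by exact_mod_cast h.m1
  have h2 : (0 : ℝ) < p.2 := by exact_mod_cast h.n1
  have h3 := (h.log_le hH).trans hL
  refine ⟨le_two_mul_of_log h1 h2 h3, le_two_mul_of_log h2 h1 ?_⟩
  rwa [abs_sub_comm]

lemma NearD.diff_le {N : ℕ} {L H : ℝ} {p : ℕ × ℕ} (h : NearD N L H p) (hH : 0 < H)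
    (hL : L / H ≤ Real.log 2) : |(p.1 : ℝ) - p.2| * H ≤ 2 * p.1 * L := by
  have h1 : (0 : ℝ) < p.1 := by exact_mod_cast h.m1
  have h2 : (0 : ℝ) < p.2 := by exact_mod_cast h.n1
  have h3 := abs_sub_le_max_mul_log h1 h2
  have h4 : max (p.1 : ℝ) p.2 ≤ 2 * p.1 := max_le (by linarith) (h.le_two hH hL).2
  calc |(p.1 : ℝ) - p.2| * H ≤ (max (p.1 : ℝ) p.2 * |Real.log p.1 - Real.log p.2|) * H := by gcongr
    _ ≤ (2 * p.1 * |Real.log p.1 - Real.log p.2|) * H := by gcongr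
    _ = 2 * p.1 * (H * |Real.log p.1 - Real.log p.2|) := by ring
    _ ≤ 2 * p.1 * L := by
        have := h.lg
        gcongr

/-- The key of a quadruple. -/
def key (q : (ℕ × ℕ) × (ℕ × ℕ)) : ℕ × ℕ × Bool × ℤ :=
  (q.1.1, ((q.2.1 : ℤ) - q.2.2).natAbs, decide (q.2.2 < q.2.1),
    (q.1.1 : ℤ) * q.2.2 - (q.2.1 : ℤ) * q.1.2)

/-- The fibres of the key are small. -/
lemma fibre_card (Q : Finset ((ℕ × ℕ) × (ℕ × ℕ))) (N : ℕ) (D : ℝ)
    (hQ : ∀ q ∈ Q, 1 ≤ q.1.1 ∧ q.1.1 ≤ N ∧ 1 ≤ q.1.2 ∧ q.1.2 ≤ N ∧ 1 ≤ q.2.1 ∧ q.2.1 ≤ N ∧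
      1 ≤ q.2.2 ∧ q.2.2 ≤ N ∧ q.1.1 ≠ q.1.2 ∧ q.2.1 ≠ q.2.2)
    (hD : ∀ n : ℕ, n ≠ 0 → n ≤ N ^ 2 → (n.divisors.card : ℝ) ≤ D) (hD0 : 0 ≤ D)
    (k : ℕ × ℕ × Bool × ℤ) :
    ((Q.filter (fun q => key q = k)).card : ℝ) ≤ D := by
  classical
  rcases Finset.eq_empty_or_nonempty (Q.filter (fun q => key q = k)) with h0 | ⟨q0, hq0⟩
  · rw [h0]; simpa using hD0
  obtain ⟨m, a, s, j⟩ := k
  -- the product `P = m' h`
  set h' : ℤ := if s then (a : ℤ) else -(a : ℤ) with hh'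
  have hkey : ∀ q ∈ Q.filter (fun q => key q = (m, a, s, j)),
      q.1.1 = m ∧ (q.2.1 : ℤ) - q.2.2 = h' ∧ (q.1.1 : ℤ) * q.2.2 - (q.2.1 : ℤ) * q.1.2 = j := by
    intro q hq
    rw [mem_filter] at hq
    obtain ⟨hq1, hq2⟩ := hq
    simp only [key, Prod.mk.injEq] at hq2
    obtain ⟨e1, e2, e3, e4⟩ := hq2
    refine ⟨e1, ?_, e4⟩
    rw [hh']
    by_cases hs : s = true
    · rw [if_pos hs]
      rw [hs] at e3
      have : q.2.2 < q.2.1 := by simpa using e3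
      omega
    · rw [if_neg hs]
      have hs' : s = false := by simpa using hs
      rw [hs'] at e3
      have : ¬ q.2.2 < q.2.1 := by simpa using e3
      omega
  have hP : ∀ q ∈ Q.filter (fun q => key q = (m, a, s, j)),
      (q.2.1 : ℤ) * ((q.1.1 : ℤ) - q.1.2) = (m : ℤ) * h' + j := by
    intro q hq
    obtain ⟨e1, e2, e3⟩ := hkey q hq
    rw [← e2, ← e3, ← e1]
    ring
  set P : ℕ := ((m : ℤ) * h' + j).natAbs with hPdef
  have hPne : P ≠ 0 := by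
    rw [hPdef, Int.natAbs_ne_zero, ← hP q0 hq0]
    have hq := hQ q0 (mem_filter.1 hq0).1
    obtain ⟨_, _, _, _, b1, _, _, _, b2, _⟩ := hq
    refine mul_ne_zero (by omega) (by omega)
  have hPle : P ≤ N ^ 2 := by
    rw [hPdef, ← hP q0 hq0, Int.natAbs_mul, sq]
    have hq := hQ q0 (mem_filter.1 hq0).1
    obtain ⟨_, c1, _, c2, b1, b3, _, _, b2, _⟩ := hq
    exact Nat.mul_le_mul (by omega) (by omega)
  have hcard : (Q.filter (fun q => key q = (m, a, s, j))).card ≤ P.divisors.card := by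
    refine Finset.card_le_card_of_injOn (fun q => q.2.1) ?_ ?_
    · intro q hq
      have hq' : q ∈ Q.filter (fun q => key q = (m, a, s, j)) := hq
      have := hP q hq'
      simp only [Finset.mem_coe, Nat.mem_divisors]
      refine ⟨?_, hPne⟩
      rw [← Int.natAbs_natCast q.2.1, hPdef, ← this, Int.natAbs_mul]
      exact Dvd.intro _ rfl
    · intro q hq r hr hqr
      have hq' : q ∈ Q.filter (fun q => key q = (m, a, s, j)) := hq
      have hr' : r ∈ Q.filter (fun q => key q = (m, a, s, j)) := hr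
      simp only at hqr
      obtain ⟨e1, e2, e3⟩ := hkey q hq'
      obtain ⟨f1, f2, f3⟩ := hkey r hr'
      have g1 : q.1.1 = r.1.1 := by omega
      have g2 : q.2.2 = r.2.2 := by
        have : (q.2.1 : ℤ) = r.2.1 := by exact_mod_cast hqr
        omega
      have hr1 := (hQ r (mem_filter.1 hr').1).2.2.2.2.1
      have g3 : q.1.2 = r.1.2 := by
        have h1 : (q.1.1 : ℤ) * q.2.2 - (q.2.1 : ℤ) * q.1.2 =
            (r.1.1 : ℤ) * r.2.2 - (r.2.1 : ℤ) * r.1.2 := by rw [e3, f3]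
        rw [g1, g2, hqr] at h1
        have h2 : (r.2.1 : ℤ) * q.1.2 = (r.2.1 : ℤ) * r.1.2 := by linarith
        have h3 : (r.2.1 : ℤ) ≠ 0 := by omega
        have h4 := mul_left_cancel₀ h3 h2
        exact_mod_cast h4
      exact Prod.ext (Prod.ext g1 g3) (Prod.ext hqr g2)
  calc ((Q.filter (fun q => key q = (m, a, s, j))).card : ℝ) ≤ (P.divisors.card : ℝ) := by
        exact_mod_cast hcard
    _ ≤ D := hD P hPne hPle

/-- The main count, with explicit constants. -/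
theorem quad_sum (Q : Finset ((ℕ × ℕ) × (ℕ × ℕ))) (N : ℕ) (T H L D : ℝ)
    (hQ : ∀ q ∈ Q, NearD N L H q.1 ∧ NearD N L H q.2 ∧
      T * |(Real.log q.1.1 - Real.log q.1.2) - (Real.log q.2.1 - Real.log q.2.2)| ≤ L)
    (hT : 0 < T) (hH : 0 < H) (hL0 : 0 ≤ L) (hL : L / H ≤ Real.log 2)
    (hD : ∀ n : ℕ, n ≠ 0 → n ≤ N ^ 2 → (n.divisors.card : ℝ) ≤ D) (hD0 : 0 ≤ D) :
    ∑ q ∈ Q, 1 / (Real.sqrt (q.1.1 * q.1.2) * Real.sqrt (q.2.1 * q.2.2)) ≤
      D * (4 * L / H) * ((1 + Real.log N) * (1 + Real.log (⌊2 * N * L / H⌋₊ : ℕ)) *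
        (2 * (1 + 4 * (N : ℝ) ^ 2 * L / T))) := by
  classical
  set R : ℕ := ⌊2 * N * L / H⌋₊ with hR
  set J : ℕ := ⌊2 * (N : ℝ) ^ 2 * L / T⌋₊ with hJ
  set K : Finset (ℕ × ℕ × Bool × ℤ) :=
    Icc 1 N ×ˢ Icc 1 R ×ˢ (univ : Finset Bool) ×ˢ Icc (-(J : ℤ)) J with hK
  let g : ℕ × ℕ × Bool × ℤ → ℝ := fun k => (4 * L / H) * ((1 / (k.1 : ℝ)) * (1 / (k.2.1 : ℝ)))
  have hg0 : ∀ k, 0 ≤ g k := fun k => by positivity
  -- each weight is bounded by `g (key q)`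
  have hw : ∀ q ∈ Q, 1 / (Real.sqrt (q.1.1 * q.1.2) * Real.sqrt (q.2.1 * q.2.2)) ≤ g (key q) := by
    intro q hq
    obtain ⟨a1, a2, a3⟩ := hQ q hq
    have m1 : (1 : ℝ) ≤ q.1.1 := by exact_mod_cast a1.m1
    have m2 : (1 : ℝ) ≤ q.2.1 := by exact_mod_cast a2.m1
    have n1 := (a1.le_two hH hL).1
    have n2 := (a2.le_two hH hL).1
    have d2 := a2.diff_le hH hL
    have hne : (q.2.1 : ℤ) - q.2.2 ≠ 0 := by
      have := a2.ne
      omega
    have ha : (1 : ℝ) ≤ (((q.2.1 : ℤ) - q.2.2).natAbs : ℝ) := by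
      have : 1 ≤ ((q.2.1 : ℤ) - q.2.2).natAbs := Nat.one_le_iff_ne_zero.2 (by simpa using hne)
      exact_mod_cast this
    have habs : |(q.2.1 : ℝ) - q.2.2| = (((q.2.1 : ℤ) - q.2.2).natAbs : ℝ) := by
      rw [Nat.cast_natAbs]
      push_cast
      ring_nf
    -- square roots
    have s1 : (q.1.1 : ℝ) / Real.sqrt 2 ≤ Real.sqrt (q.1.1 * q.1.2) := by
      rw [div_le_iff₀ (by positivity), ← Real.sqrt_mul (by positivity)]
      refine Real.le_sqrt_of_sq_le ?_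
      nlinarith
    have s2 : (q.2.1 : ℝ) / Real.sqrt 2 ≤ Real.sqrt (q.2.1 * q.2.2) := by
      rw [div_le_iff₀ (by positivity), ← Real.sqrt_mul (by positivity)]
      refine Real.le_sqrt_of_sq_le ?_
      nlinarith
    have s3 : (q.1.1 : ℝ) * q.2.1 / 2 ≤ Real.sqrt (q.1.1 * q.1.2) * Real.sqrt (q.2.1 * q.2.2) := by
      calc (q.1.1 : ℝ) * q.2.1 / 2 = (q.1.1 : ℝ) / Real.sqrt 2 * (q.2.1 / Real.sqrt 2) := by
            rw [div_mul_div_comm, Real.mul_self_sqrt (by norm_num)]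
        _ ≤ _ := by gcongr
    calc 1 / (Real.sqrt (q.1.1 * q.1.2) * Real.sqrt (q.2.1 * q.2.2))
        ≤ 1 / ((q.1.1 : ℝ) * q.2.1 / 2) := by
          apply one_div_le_one_div_of_le (by positivity) s3
      _ ≤ g (key q) := by
          simp only [g, key]
          rw [div_le_iff₀ (by positivity)]
          have e1 : 4 * L / H * (1 / (q.1.1 : ℝ) * (1 / (((q.2.1 : ℤ) - q.2.2).natAbs : ℝ))) *
              ((q.1.1 : ℝ) * q.2.1 / 2) =
              (2 * q.2.1 * L) / (H * (((q.2.1 : ℤ) - q.2.2).natAbs : ℝ)) := by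
            field_simp
            ring
          rw [e1, le_div_iff₀ (by positivity), one_mul, ← habs]
          linarith
  -- the key is in `K`
  have hmap : ∀ q ∈ Q, key q ∈ K := by
    intro q hq
    obtain ⟨a1, a2, a3⟩ := hQ q hq
    have m1 : (1 : ℝ) ≤ q.1.1 := by exact_mod_cast a1.m1
    have m2 : (1 : ℝ) ≤ q.2.1 := by exact_mod_cast a2.m1
    have k1 : (1 : ℝ) ≤ q.1.2 := by exact_mod_cast a1.n1
    have k2 : (1 : ℝ) ≤ q.2.2 := by exact_mod_cast a2.n1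
    have hm1 : (q.1.1 : ℝ) ≤ N := by exact_mod_cast a1.mN
    have hm2 : (q.2.1 : ℝ) ≤ N := by exact_mod_cast a2.mN
    have n1 := (a1.le_two hH hL).2
    have n2 := (a2.le_two hH hL).2
    have d2 := a2.diff_le hH hL
    have hne : (q.2.1 : ℤ) - q.2.2 ≠ 0 := by
      have := a2.ne
      omega
    have habs : |(q.2.1 : ℝ) - q.2.2| = (((q.2.1 : ℤ) - q.2.2).natAbs : ℝ) := by
      rw [Nat.cast_natAbs]
      push_cast
      ring_nf
    simp only [hK, key, mem_product, mem_Icc, mem_univ, true_and]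
    refine ⟨⟨a1.m1, a1.mN⟩, ⟨Nat.one_le_iff_ne_zero.2 (by simpa using hne), ?_⟩, ?_⟩
    · rw [hR]
      apply Nat.le_floor
      rw [← habs, le_div_iff₀ hH]
      calc |(q.2.1 : ℝ) - q.2.2| * H ≤ 2 * q.2.1 * L := d2
        _ ≤ 2 * N * L := by gcongr
    · -- `|j| ≤ J`
      have hx : (0 : ℝ) < (q.1.1 : ℝ) * q.2.2 := by positivity
      have hy : (0 : ℝ) < (q.2.1 : ℝ) * q.1.2 := by positivity
      have b1 := abs_sub_le_max_mul_log hx hy
      have b2 : Real.log ((q.1.1 : ℝ) * q.2.2) - Real.log ((q.2.1 : ℝ) * q.1.2) =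
          (Real.log q.1.1 - Real.log q.1.2) - (Real.log q.2.1 - Real.log q.2.2) := by
        rw [Real.log_mul (by positivity) (by positivity), Real.log_mul (by positivity) (by positivity)]
        ring
      rw [b2] at b1
      have b3 : max ((q.1.1 : ℝ) * q.2.2) ((q.2.1 : ℝ) * q.1.2) ≤ 2 * (N : ℝ) ^ 2 := by
        apply max_le
        · calc (q.1.1 : ℝ) * q.2.2 ≤ q.1.1 * (2 * q.2.1) := by gcongr
            _ ≤ N * (2 * N) := by gcongr
            _ = 2 * (N : ℝ) ^ 2 := by ring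
        · calc (q.2.1 : ℝ) * q.1.2 ≤ q.2.1 * (2 * q.1.1) := by gcongr
            _ ≤ N * (2 * N) := by gcongr
            _ = 2 * (N : ℝ) ^ 2 := by ring
      have b4 : |((q.1.1 : ℝ) * q.2.2) - ((q.2.1 : ℝ) * q.1.2)| ≤ 2 * (N : ℝ) ^ 2 * L / T := by
        rw [le_div_iff₀ hT]
        calc |((q.1.1 : ℝ) * q.2.2) - ((q.2.1 : ℝ) * q.1.2)| * T
            ≤ (max ((q.1.1 : ℝ) * q.2.2) ((q.2.1 : ℝ) * q.1.2) *
              |(Real.log q.1.1 - Real.log q.1.2) - (Real.log q.2.1 - Real.log q.2.2)|) * T := by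
              gcongr
          _ ≤ (2 * (N : ℝ) ^ 2 *
              |(Real.log q.1.1 - Real.log q.1.2) - (Real.log q.2.1 - Real.log q.2.2)|) * T := by
              gcongr
          _ = 2 * (N : ℝ) ^ 2 *
              (T * |(Real.log q.1.1 - Real.log q.1.2) - (Real.log q.2.1 - Real.log q.2.2)|) := by
              ring
          _ ≤ 2 * (N : ℝ) ^ 2 * L := by gcongr
      have b5 : (((q.1.1 : ℤ) * q.2.2 - (q.2.1 : ℤ) * q.1.2).natAbs : ℝ) ≤
          2 * (N : ℝ) ^ 2 * L / T := by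
        rw [Nat.cast_natAbs]
        push_cast
        exact b4
      have b6 : ((q.1.1 : ℤ) * q.2.2 - (q.2.1 : ℤ) * q.1.2).natAbs ≤ J := Nat.le_floor b5
      omega
  -- the sum over the keys
  calc ∑ q ∈ Q, 1 / (Real.sqrt (q.1.1 * q.1.2) * Real.sqrt (q.2.1 * q.2.2))
      ≤ ∑ q ∈ Q, g (key q) := sum_le_sum hw
    _ = ∑ k ∈ K, ∑ q ∈ Q.filter (fun q => key q = k), g (key q) :=
        (sum_fiberwise_of_maps_to hmap _).symm
    _ = ∑ k ∈ K, ((Q.filter (fun q => key q = k)).card : ℝ) * g k := by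
        refine sum_congr rfl fun k _ => ?_
        rw [sum_congr rfl (g := fun _ => g k) (fun q hq => by rw [(mem_filter.1 hq).2]),
          sum_const, nsmul_eq_mul]
    _ ≤ ∑ k ∈ K, D * g k := by
        refine sum_le_sum fun k _ => mul_le_mul_of_nonneg_right ?_ (hg0 k)
        refine fibre_card Q N D (fun q hq => ?_) hD hD0 k
        obtain ⟨a1, a2, _⟩ := hQ q hq
        exact ⟨a1.m1, a1.mN, a1.n1, a1.nN, a2.m1, a2.mN, a2.n1, a2.nN, a1.ne, a2.ne⟩
    _ = D * (4 * L / H) * ((∑ m ∈ Icc 1 N, (1 : ℝ) / m) * (∑ a ∈ Icc 1 R, (1 : ℝ) / a) *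
        (2 * (2 * (J : ℝ) + 1))) := by
        rw [hK, ← mul_sum]
        simp only [g]
        rw [← mul_sum, sum_product, mul_assoc]
        congr 1
        congr 1
        rw [sum_mul, sum_mul]
        refine sum_congr rfl fun m _ => ?_
        rw [sum_product, mul_sum, sum_mul]
        refine sum_congr rfl fun a _ => ?_
        rw [sum_product]
        simp only [sum_const, Int.card_Icc, card_univ, Fintype.card_bool, nsmul_eq_mul]
        have : ((((J : ℤ) + 1 - -(J : ℤ)).toNat : ℕ) : ℝ) = 2 * (J : ℝ) + 1 := by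
          have h : ((J : ℤ) + 1 - -(J : ℤ)).toNat = 2 * J + 1 := by omega
          rw [h]; push_cast; ring
        rw [this]
        push_cast
        ring
    _ ≤ D * (4 * L / H) * ((1 + Real.log N) * (1 + Real.log (R : ℕ)) *
        (2 * (1 + 4 * (N : ℝ) ^ 2 * L / T))) := by
        have hJ1 : (J : ℝ) ≤ 2 * (N : ℝ) ^ 2 * L / T := Nat.floor_le (by positivity)
        have hJ2 : 2 * (J : ℝ) + 1 ≤ 1 + 4 * (N : ℝ) ^ 2 * L / T := by
          have : 4 * (N : ℝ) ^ 2 * L / T = 2 * (2 * (N : ℝ) ^ 2 * L / T) := by ring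
          rw [this]; linarith
        have hN : (0 : ℝ) ≤ ∑ m ∈ Icc 1 N, (1 : ℝ) / m := sum_nonneg fun _ _ => by positivity
        have hRR : (0 : ℝ) ≤ ∑ a ∈ Icc 1 R, (1 : ℝ) / a := sum_nonneg fun _ _ => by positivity
        have e1 := sum_inv_le N
        have e2 := sum_inv_le R
        have hlogN : 0 ≤ 1 + Real.log (N : ℝ) := hN.trans e1
        have hlogR : 0 ≤ 1 + Real.log (R : ℝ) := hRR.trans e2
        gcongr

end Pool.Agent.Lib.MP_6bc78b_nt.LW.H71
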