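import Pool.Agent.Lib.MP_6bc78b_nt.LW.Iface
import Pool.Agent.Lib.MP_6bc78b_nt.LW.H71.Quad

/-! W6: `Cnt4Statement` and `Nb0Statement`. -/

set_option autoImplicit false

open Filter Topology Finset

namespace Pool.Agent.Lib.MP_6bc78b_nt.LW.H71

open Pool.Agent.Lib.MP_6bc78b_nt.LW

lemma mem_prs {N : ℕ} {T H : ℝ} {p : ℕ × ℕ} : p ∈ prs N T H ↔ NearD N (Real.log T) H p := by
  classical
  unfold prs
  rw [Finset.mem_filter, Finset.mem_product, Finset.mem_Icc, Finset.mem_Icc]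
  constructor
  · rintro ⟨⟨⟨a, b⟩, c, d⟩, e, f⟩
    exact ⟨a, b, c, d, e, f⟩
  · rintro ⟨a, b, c, d, e, f⟩
    exact ⟨⟨⟨a, b⟩, c, d⟩, e, f⟩

theorem nb0 : Nb0Statement := by
  intro a0 ha0
  have h1 : (fun x : ℝ => Real.log x) =o[atTop] fun x => x ^ a0 := isLittleO_log_rpow_atTop ha0
  have h2 : ∀ᶠ x : ℝ in atTop, Real.log x < x ^ a0 := by
    have := h1.bound (show (0 : ℝ) < 1 / 2 by norm_num)
    filter_upwards [this, eventually_gt_atTop (1 : ℝ)] with x hx hx1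
    have hp : 0 < x ^ a0 := Real.rpow_pos_of_pos (by linarith) _
    rw [Real.norm_of_nonneg (Real.log_nonneg hx1.le), Real.norm_of_nonneg hp.le] at hx
    linarith
  obtain ⟨T0, hT0⟩ := Filter.eventually_atTop.1 h2
  refine ⟨max T0 1, fun T H N hT hN => ?_⟩
  have hT1 : (1 : ℝ) ≤ T := (le_max_right _ _).trans hT
  have hlt := hT0 T ((le_max_left _ _).trans hT)
  rw [Finset.eq_empty_iff_forall_notMem]
  intro p hp
  have hn := mem_prs.1 hp
  have m1 : (0 : ℝ) < p.1 := by exact_mod_cast hn.m1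
  have n1 : (0 : ℝ) < p.2 := by exact_mod_cast hn.n1
  have hm : (p.1 : ℝ) ≤ N := by exact_mod_cast hn.mN
  have hn' : (p.2 : ℝ) ≤ N := by exact_mod_cast hn.nN
  have b1 := abs_sub_le_max_mul_log m1 n1
  have b2 : (1 : ℝ) ≤ |(p.1 : ℝ) - p.2| := by
    have h3 : (1 : ℤ) ≤ |(p.1 : ℤ) - p.2| := by
      apply Int.one_le_abs
      have := hn.ne
      omega
    exact_mod_cast h3
  have b3 : (1 : ℝ) ≤ N * |Real.log p.1 - Real.log p.2| :=
    b2.trans (b1.trans (mul_le_mul_of_nonneg_right (max_le hm hn') (abs_nonneg _)))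
  have b4 : T ^ a0 ≤ Real.log T := by
    calc T ^ a0 = T ^ a0 * 1 := (mul_one _).symm
      _ ≤ T ^ a0 * (N * |Real.log p.1 - Real.log p.2|) := by
          have : 0 ≤ T ^ a0 := Real.rpow_nonneg (by linarith) _
          exact mul_le_mul_of_nonneg_left b3 this
      _ = (N * T ^ a0) * |Real.log p.1 - Real.log p.2| := by ring
      _ ≤ H * |Real.log p.1 - Real.log p.2| := mul_le_mul_of_nonneg_right hN (abs_nonneg _)
      _ ≤ Real.log T := hn.lg
  linarith

theorem cnt4 : Cnt4Statement := by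
  classical
  intro a0 ε ha0 _ hε
  obtain ⟨C, hC1, hC⟩ := Pool.Agent.Lib.MP_3ae5b0_nt.divisor_bound (ε / 4) (by positivity)
  -- largeness of `T`
  have h1 : ∀ᶠ x : ℝ in atTop, 480 * C * (4 : ℝ) ^ (ε / 4) * Real.log x ^ (4 : ℝ) ≤ x ^ (ε / 2) := by
    have h := (isLittleO_log_rpow_rpow_atTop (4 : ℝ) (show 0 < ε / 2 by positivity)).bound
      (show (0 : ℝ) < 1 / (480 * C * (4 : ℝ) ^ (ε / 4)) by positivity)
    filter_upwards [h, eventually_gt_atTop (1 : ℝ)] with x hx hx1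
    have hp : 0 < x ^ (ε / 2) := Real.rpow_pos_of_pos (by linarith) _
    have hl : 0 ≤ Real.log x := Real.log_nonneg hx1.le
    rw [Real.norm_of_nonneg (Real.rpow_nonneg hl _), Real.norm_of_nonneg hp.le] at hx
    have hc : 0 < 480 * C * (4 : ℝ) ^ (ε / 4) := by positivity
    calc 480 * C * (4 : ℝ) ^ (ε / 4) * Real.log x ^ (4 : ℝ)
        ≤ 480 * C * (4 : ℝ) ^ (ε / 4) * (1 / (480 * C * (4 : ℝ) ^ (ε / 4)) * x ^ (ε / 2)) :=
          mul_le_mul_of_nonneg_left hx hc.le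
      _ = x ^ (ε / 2) := by field_simp
  have h2 : ∀ᶠ x : ℝ in atTop, Real.log x ≤ Real.log 2 * x ^ a0 := by
    have h := (isLittleO_log_rpow_atTop ha0).bound (show (0 : ℝ) < Real.log 2 by positivity)
    filter_upwards [h, eventually_gt_atTop (1 : ℝ)] with x hx hx1
    have hp : 0 < x ^ a0 := Real.rpow_pos_of_pos (by linarith) _
    rwa [Real.norm_of_nonneg (Real.log_nonneg hx1.le), Real.norm_of_nonneg hp.le] at hx
  obtain ⟨T0, hT0⟩ := Filter.eventually_atTop.1 ((h1.and h2).and (eventually_ge_atTop (Real.exp 1)))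
  refine ⟨T0, fun T H N hT hH1 hH2 hN => ?_⟩
  obtain ⟨⟨g1, g2⟩, g3⟩ := hT0 T hT
  have he : (2 : ℝ) < Real.exp 1 := by
    have := Real.exp_one_gt_d9; linarith
  have hTp : (0 : ℝ) < T := by linarith
  have hT1 : (1 : ℝ) ≤ T := by linarith
  set L := Real.log T with hLdef
  have hL1 : 1 ≤ L := by
    rw [hLdef, Real.le_log_iff_exp_le hTp]; exact g3
  have hTa : (1 : ℝ) ≤ T ^ a0 := Real.one_le_rpow hT1 ha0.le
  have hHp : (1 : ℝ) ≤ H := hTa.trans hH1
  have hH0 : (0 : ℝ) < H := by linarith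
  have hLH : L / H ≤ Real.log 2 := by
    rw [div_le_iff₀ hH0]
    exact g2.trans (mul_le_mul_of_nonneg_left hH1 (Real.log_nonneg (by norm_num)))
  set Q := ((prs N T H) ×ˢ (prs N T H)).filter (fun q => T * |(Real.log q.1.1 - Real.log q.1.2) -
        (Real.log q.2.1 - Real.log q.2.2)| ≤ L) with hQdef
  have hR0 : 0 ≤ T ^ ε * (1 / H) * (1 + (N : ℝ) ^ 2 / T) := by positivity
  rcases Nat.eq_zero_or_pos N with hN0 | hN0
  · have : Q = ∅ := by
      rw [Finset.eq_empty_iff_forall_notMem]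
      intro q hq
      rw [hQdef, Finset.mem_filter, Finset.mem_product] at hq
      have := mem_prs.1 hq.1.1
      have h3 := this.m1
      have h4 := this.mN
      omega
    rw [this, Finset.sum_empty]
    exact hR0
  have hN1 : (1 : ℝ) ≤ N := by exact_mod_cast hN0
  set D : ℝ := C * (4 * T ^ 2) ^ (ε / 4) with hDdef
  have hD : ∀ n : ℕ, n ≠ 0 → n ≤ N ^ 2 → (n.divisors.card : ℝ) ≤ D := by
    intro n hn hn2
    refine (hC n hn).trans ?_
    rw [hDdef]
    refine mul_le_mul_of_nonneg_left ?_ (by linarith)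
    refine Real.rpow_le_rpow (Nat.cast_nonneg _) ?_ (by positivity)
    calc (n : ℝ) ≤ (N : ℝ) ^ 2 := by exact_mod_cast hn2
      _ ≤ (2 * T) ^ 2 := by gcongr
      _ = 4 * T ^ 2 := by ring
  have hD0 : 0 ≤ D := by positivity
  have main := quad_sum Q N T H L D (fun q hq => by
      rw [hQdef, Finset.mem_filter, Finset.mem_product] at hq
      exact ⟨mem_prs.1 hq.1.1, mem_prs.1 hq.1.2, hq.2⟩) hTp hH0 (by linarith) hLH hD hD0
  refine main.trans ?_
  set R : ℕ := ⌊2 * N * L / H⌋₊ with hR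
  -- the logarithms
  have hl2 : Real.log 2 ≤ 1 := by
    have := Real.log_two_lt_d9; linarith
  have k1 : 1 + Real.log N ≤ 3 * L := by
    have : Real.log N ≤ Real.log (2 * T) := Real.log_le_log (by linarith) hN
    rw [Real.log_mul (by norm_num) hTp.ne'] at this
    linarith
  have k2 : 1 + Real.log (R : ℝ) ≤ 5 * L := by
    rcases Nat.eq_zero_or_pos R with h0 | h0
    · rw [h0]; simp; linarith
    have hR1 : (1 : ℝ) ≤ R := by exact_mod_cast h0
    have hLT : L ≤ T := (Real.log_le_sub_one_of_pos hTp).trans (by linarith)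
    have hR2 : (R : ℝ) ≤ 4 * T ^ 2 := by
      calc (R : ℝ) ≤ 2 * N * L / H := Nat.floor_le (by positivity)
        _ ≤ 2 * N * L / 1 := by gcongr
        _ ≤ 2 * (2 * T) * T / 1 := by gcongr
        _ = 4 * T ^ 2 := by ring
    have : Real.log R ≤ Real.log (4 * T ^ 2) := Real.log_le_log (by linarith) hR2
    rw [Real.log_mul (by norm_num) (by positivity), Real.log_pow,
      show (4 : ℝ) = 2 ^ 2 by norm_num, Real.log_pow] at this
    push_cast at this
    linarith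
  have k0 : 0 ≤ 1 + Real.log N := by
    have := Real.log_nonneg hN1; linarith
  have k3 : 2 * (1 + 4 * (N : ℝ) ^ 2 * L / T) ≤ 8 * L * (1 + (N : ℝ) ^ 2 / T) := by
    have : 8 * L * (1 + (N : ℝ) ^ 2 / T) = 8 * L + 2 * (4 * (N : ℝ) ^ 2 * L / T) := by ring
    rw [this]; linarith
  have k4 : D = C * (4 : ℝ) ^ (ε / 4) * T ^ (ε / 2) := by
    rw [hDdef, Real.mul_rpow (by norm_num) (by positivity), ← Real.rpow_natCast T 2,
      ← Real.rpow_mul hTp.le, show ((2 : ℕ) : ℝ) * (ε / 4) = ε / 2 by push_cast; ring]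
    ring
  have k5 : (0 : ℝ) ≤ 2 * (1 + 4 * (N : ℝ) ^ 2 * L / T) := by positivity
  calc D * (4 * L / H) * ((1 + Real.log N) * (1 + Real.log (R : ℝ)) *
        (2 * (1 + 4 * (N : ℝ) ^ 2 * L / T)))
      ≤ D * (4 * L / H) * ((3 * L) * (5 * L) * (8 * L * (1 + (N : ℝ) ^ 2 / T))) := by
        gcongr
    _ = (480 * C * (4 : ℝ) ^ (ε / 4) * L ^ (4 : ℝ)) * T ^ (ε / 2) * (1 / H) *
        (1 + (N : ℝ) ^ 2 / T) := by
        rw [k4, show (4 : ℝ) = ((4 : ℕ) : ℝ) by norm_num, Real.rpow_natCast]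
        push_cast
        ring
    _ ≤ T ^ (ε / 2) * T ^ (ε / 2) * (1 / H) * (1 + (N : ℝ) ^ 2 / T) := by gcongr
    _ = T ^ ε * (1 / H) * (1 + (N : ℝ) ^ 2 / T) := by
        rw [← Real.rpow_add hTp]
        congr 3
        ring

end Pool.Agent.Lib.MP_6bc78b_nt.LW.H71
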